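import Mathlib

/-!
Definitions for the problem on Gauss maps of Frobenius nonclassical hypersurfaces.
Throughout, `V(F) ⊆ ℙⁿ(k)` is the projective hypersurface with homogeneous equation `F` in the
variables `X 0, …, X n`, and its Gauss map is `Γ = (∂F/∂X₀ : … : ∂F/∂Xₙ)`.
-/

namespace Pool.Agent.Lib.MP_291982_ag

open MvPolynomial

/-- `F` (over the finite field `Fq` with `q` elements) is `𝔽_q`-Frobenius nonclassical:
`F` divides `X₀^q F₀ + X₁^q F₁ + … + Xₙ^q Fₙ`, where `Fᵢ = ∂F/∂Xᵢ`. -/
def IsFrobeniusNonclassical {Fq : Type*} [Field Fq] [Fintype Fq] {n : ℕ}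
    (F : MvPolynomial (Fin (n + 1)) Fq) : Prop :=
  F ∣ ∑ i, X i ^ Fintype.card Fq * pderiv i F

/-- The Gauss map `(F₀ : … : Fₙ)` of `V(F)` admits powers of `p` as coordinate functions:
there are rational functions `gᵢ = aᵢ / b` on `V(F)` (the `aᵢ` homogeneous of one degree `m`; the
common denominator `b` plays no role projectively), not all vanishing identically on any
component `V(G)` of `V(F)`, such that `(F₀ : … : Fₙ) = (a₀^p : … : aₙ^p)` on `V(F)`. -/
def GaussMapHasPthPowerCoordinates {k : Type*} [Field k] {n : ℕ} (p : ℕ)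
    (F : MvPolynomial (Fin (n + 1)) k) : Prop :=
  ∃ (m : ℕ) (a : Fin (n + 1) → MvPolynomial (Fin (n + 1)) k),
    (∀ i, (a i).IsHomogeneous m) ∧
    (∀ G : MvPolynomial (Fin (n + 1)) k, Irreducible G → G ∣ F → ∃ i, ¬ G ∣ a i) ∧
    ∀ i j, F ∣ pderiv i F * a j ^ p - pderiv j F * a i ^ p

/-- For an irreducible closed subvariety `V(P)` of `ℙⁿ(k)` given by its homogeneous prime ideal
`P`, and homogeneous polynomials `f, g` of the same degree with `g ∉ P`: the rational function
`f/g` on `V(P)` is the `p`-th power of a rational function `a/b` on `V(P)`, where `a, b` are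
homogeneous of the same degree and `b ∉ P`. -/
def RatioIsPthPower {k : Type*} [Field k] {n : ℕ} (p : ℕ)
    (P : Ideal (MvPolynomial (Fin (n + 1)) k)) (f g : MvPolynomial (Fin (n + 1)) k) : Prop :=
  ∃ (m : ℕ) (a b : MvPolynomial (Fin (n + 1)) k),
    a.IsHomogeneous m ∧ b.IsHomogeneous m ∧ b ∉ P ∧ f * b ^ p - g * a ^ p ∈ P

/-- The restriction of the Gauss map of `V(F)` to the irreducible closed subvariety `V(P)` is
inseparable: every ratio `Fᵢ/Fⱼ` which is defined on `V(P)` (that is, `Fⱼ ∉ P`) is a `p`-th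
power in the function field of `V(P)`. -/
def GaussMapInseparableOn {k : Type*} [Field k] {n : ℕ} (p : ℕ)
    (F : MvPolynomial (Fin (n + 1)) k) (P : Ideal (MvPolynomial (Fin (n + 1)) k)) : Prop :=
  ∀ i j, pderiv j F ∉ P → RatioIsPthPower p P (pderiv i F) (pderiv j F)

/-- `I` is the homogeneous ideal of an (absolutely) irreducible projective curve
`V(I) ⊆ ℙⁿ(k)` defined over the subfield `K` of `k`: `I` is a homogeneous ideal of
`K[X₀, …, Xₙ]` (it contains the homogeneous components of its elements) whose extension to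
`k[X₀, …, Xₙ]` is prime, and the homogeneous coordinate ring `k[X₀, …, Xₙ]/I` has transcendence
degree `2` over `k` (so the projective variety `V(I)` has dimension `1`). -/
def IsIrreducibleCurveDefinedOver (K k : Type*) [Field K] [Field k] [Algebra K k] {n : ℕ}
    (I : Ideal (MvPolynomial (Fin (n + 1)) K)) : Prop :=
  (∀ f ∈ I, ∀ d : ℕ, homogeneousComponent d f ∈ I) ∧
  (I.map (map (algebraMap K k))).IsPrime ∧
  Algebra.trdeg k (MvPolynomial (Fin (n + 1)) k ⧸ I.map (map (algebraMap K k))) = 2

end Pool.Agent.Lib.MP_291982_ag
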