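import Mathlib
import Pool.Agent.Lib.MP_291982_ag.Defs

/-!
The Frobenius derivation and the Hessian test for `p`-th powers.
-/

namespace Pool.Agent.Lib.MP_291982_ag

open MvPolynomial

/-- The derivation `∑ Xᵢ^q ∂/∂Xᵢ`. -/
noncomputable def frobDer (R : Type*) [CommRing R] (σ : Type*) (q : ℕ) :
    Derivation R (MvPolynomial σ R) (MvPolynomial σ R) :=
  mkDerivation R fun i => X i ^ q

theorem frobDer_X {R : Type*} [CommRing R] {σ : Type*} (q : ℕ) (i : σ) :
    frobDer R σ q (X i) = X i ^ q := by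
  rw [frobDer, mkDerivation_X]

theorem frobDer_X_pow {R : Type*} [CommRing R] {σ : Type*} (q : ℕ) (hq : (q : R) = 0) (i : σ) :
    frobDer R σ q (X i ^ q) = 0 := by
  rw [Derivation.leibniz_pow, ← Nat.cast_smul_eq_nsmul R, hq, zero_smul]

theorem derivation_sum_apply {R A ι : Type*} [CommRing R] [CommRing A] [Algebra R A]
    (s : Finset ι) (D : ι → Derivation R A A) (f : A) :
    (∑ i ∈ s, D i) f = ∑ i ∈ s, D i f := by
  classical
  induction s using Finset.induction_on with
  | empty => simp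
  | insert a s ha ih => rw [Finset.sum_insert ha, Finset.sum_insert ha, Derivation.add_apply, ih]

theorem sum_eq_frobDer {R : Type*} [CommRing R] {σ : Type*} [Fintype σ] (q : ℕ)
    (F : MvPolynomial σ R) : ∑ i, X i ^ q * pderiv i F = frobDer R σ q F := by
  classical
  have : (∑ i, (X i ^ q : MvPolynomial σ R) • (pderiv i :
      Derivation R (MvPolynomial σ R) (MvPolynomial σ R))) = frobDer R σ q := by
    apply derivation_ext
    intro j
    rw [frobDer_X, derivation_sum_apply, Finset.sum_eq_single j]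
    · simp
    · intro b _ hb
      simp [pderiv_X_of_ne (Ne.symm hb)]
    · intro h; exact absurd (Finset.mem_univ _) h
  rw [← this, derivation_sum_apply]
  rfl

/-- A twisted Leibniz rule: the functions `x_i^q - x_i w^(q-1)` are eigenvectors. -/
theorem frobDer_tilde {R : Type*} [CommRing R] {σ : Type*} (q : ℕ) (hq1 : 1 ≤ q)
    (hq : (q : R) = 0) (i w : σ) :
    frobDer R σ q (X i ^ q - X i * X w ^ (q - 1)) =
      - X w ^ (q - 1) * (X i ^ q - X i * X w ^ (q - 1)) := by
  obtain ⟨r, rfl⟩ : ∃ r, q = r + 1 := ⟨q - 1, by omega⟩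
  have hr : (r : R) = -1 := by
    push_cast at hq
    linear_combination hq
  rw [map_sub, frobDer_X_pow _ hq, Derivation.leibniz, frobDer_X, Derivation.leibniz_pow,
    frobDer_X, ← Nat.cast_smul_eq_nsmul R]
  simp only [Nat.add_sub_cancel, hr, smul_eq_mul, neg_smul, one_smul]
  rcases r with _ | r
  · have : (1 : R) = 0 := by simpa using hq
    have h0 : ∀ x : MvPolynomial σ R, x = 0 := by
      intro x
      have : (C (1 : R) : MvPolynomial σ R) = 0 := by rw [this, C_0]
      rw [C_1] at this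
      rw [← one_mul x, this, zero_mul]
    rw [h0 (0 - _), h0 (- _ * _)]
  · simp only [Nat.add_sub_cancel]
    ring

/-- If `F` is prime, `δ = Fⱼ ∂ᵢ - Fᵢ ∂ⱼ`, and `F` does not divide `Fⱼ δ(Fᵢ) - Fᵢ δ(Fⱼ)`, then the
Gauss map of `V(F)` does not admit powers of `p` as coordinate functions. -/
theorem not_gaussMapHasPthPowerCoordinates {k : Type*} [Field k] {n : ℕ} (p : ℕ) [CharP k p]
    (hp : p ≠ 0)
    (F : MvPolynomial (Fin (n + 1)) k) (hF : Irreducible F) (i j : Fin (n + 1))
    (h : ¬ F ∣ pderiv j F * (pderiv j F * pderiv i (pderiv i F)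
        - pderiv i F * pderiv j (pderiv i F))
      - pderiv i F * (pderiv j F * pderiv i (pderiv j F)
        - pderiv i F * pderiv j (pderiv j F))) :
    ¬ GaussMapHasPthPowerCoordinates p F := by
  rintro ⟨m, a, -, hnon, hrel⟩
  obtain ⟨i0, hi0⟩ := hnon F hF dvd_rfl
  have hprime : Prime F := hF.prime
  set Fi := pderiv i F with hFi
  set Fj := pderiv j F with hFj
  let δ : MvPolynomial (Fin (n + 1)) k → MvPolynomial (Fin (n + 1)) k :=
    fun g => Fj * pderiv i g - Fi * pderiv j g
  have hδmul : ∀ f g, δ (f * g) = δ f * g + f * δ g := by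
    intro f g
    simp only [δ, pderiv_mul]
    ring
  have hδsub : ∀ f g, δ (f - g) = δ f - δ g := by
    intro f g
    simp only [δ, map_sub]
    ring
  have hδF : δ F = 0 := by
    simp only [δ]
    rw [← hFi, ← hFj]
    ring
  have hδpow : ∀ f, δ (f ^ p) = 0 := by
    intro f
    simp only [δ, pderiv_pow]
    have : ((p : ℕ) : MvPolynomial (Fin (n + 1)) k) = 0 := by
      have : ((p : ℕ) : k) = 0 := CharP.cast_eq_zero k p
      rw [← map_natCast (C : k →+* MvPolynomial (Fin (n + 1)) k), this, C_0]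
    rw [this]
    ring
  have hFj_ndvd : ¬ F ∣ Fj := by
    rintro ⟨H, hH⟩
    apply h
    have h1 : δ Fj = F * δ H := by
      rw [hH, hδmul, hδF]; ring
    refine dvd_sub ?_ ?_
    · rw [hH]; exact Dvd.intro _ (by rw [mul_assoc])
    · change F ∣ Fi * δ Fj
      rw [h1]
      exact Dvd.intro (Fi * δ H) (by ring)
  have haj : ¬ F ∣ a j := by
    intro hd
    have h1 : F ∣ Fj * a i0 ^ p := by
      have h2 := hrel i0 j
      have h3 : F ∣ pderiv i0 F * a j ^ p := Dvd.dvd.mul_left (dvd_pow hd hp) _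
      have := dvd_sub h3 h2
      simpa using this
    rcases hprime.dvd_or_dvd h1 with h2 | h2
    · exact hFj_ndvd h2
    · exact hi0 (hprime.dvd_of_dvd_pow h2)
  obtain ⟨H, hH⟩ := hrel i j
  have h1 : δ Fi * a j ^ p - δ Fj * a i ^ p = F * δ H := by
    have h2 : δ (Fi * a j ^ p - Fj * a i ^ p) = δ (F * H) := by rw [hH]
    rw [hδsub, hδmul, hδmul, hδmul, hδpow, hδpow, hδF] at h2
    linear_combination h2
  have h3 : F ∣ a j ^ p * (Fj * δ Fi - Fi * δ Fj) := by
    refine ⟨Fj * δ H - δ Fj * H, ?_⟩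
    have hH' : Fi * a j ^ p - Fj * a i ^ p = F * H := hH
    linear_combination Fj * h1 - δ Fj * hH'
  rcases hprime.dvd_or_dvd h3 with h4 | h4
  · exact haj (hprime.dvd_of_dvd_pow h4)
  · exact h h4

end Pool.Agent.Lib.MP_291982_ag
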