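import Mathlib

/-!
A reversed Eisenstein criterion for trinomials `α (T^q - ν T) + N`.
-/

namespace Pool.Agent.Lib.MP_291982_ag

open Polynomial

/-- If the constant coefficient is nonzero and the reverse polynomial is irreducible, then the
polynomial is irreducible. -/
theorem irreducible_of_reverse {R : Type*} [CommRing R] [IsDomain R] {f : R[X]}
    (h0 : f.coeff 0 ≠ 0) (hd : 0 < f.natDegree) (hr : Irreducible f.reverse) : Irreducible f := by
  have key : ∀ a b : R[X], f = a * b → IsUnit a.reverse → IsUnit a := by
    intro a b hab ha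
    have ha0 : a.coeff 0 ≠ 0 := by
      intro h
      apply h0
      rw [hab, mul_coeff_zero, h, zero_mul]
    have hnd : a.reverse.natDegree = a.natDegree := by
      rw [reverse_natDegree, natTrailingDegree_eq_zero.2 (Or.inr ha0), Nat.sub_zero]
    have h1 : a.reverse.natDegree = 0 := natDegree_eq_zero_of_isUnit ha
    rw [hnd] at h1
    rw [eq_C_of_natDegree_eq_zero h1] at ha ⊢
    rwa [reverse_C] at ha
  refine ⟨?_, ?_⟩
  · intro hu
    exact absurd (natDegree_eq_zero_of_isUnit hu) hd.ne'
  · intro a b hab
    have hmul : f.reverse = a.reverse * b.reverse := by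
      rw [hab, reverse_mul_of_domain]
    rcases hr.isUnit_or_isUnit hmul with h | h
    · exact Or.inl (key a b hab h)
    · exact Or.inr (key b a (by rw [hab, mul_comm]) h)

/-- A reversed Eisenstein criterion for `α (T^q - ν T) + N`. -/
theorem irreducible_trinomial {R : Type*} [CommRing R] [IsDomain R] {P : Ideal R}
    (hP : P.IsPrime) {α ν N : R} {q : ℕ} (hq : 2 ≤ q) (hα : α ∈ P) (hα2 : α ∉ P ^ 2)
    (hN : N ∉ P) (hprim : ∀ c, c ∣ α → c ∣ N → IsUnit c) :
    Irreducible (C α * (X ^ q - C ν * X) + C N : R[X]) := by
  classical
  have hα0 : α ≠ 0 := by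
    rintro rfl; exact hα2 (Submodule.zero_mem _)
  have hN0 : N ≠ 0 := by
    rintro rfl; exact hN (Submodule.zero_mem _)
  set f : R[X] := C α * (X ^ q - C ν * X) + C N with hf
  have hfexp : f = C α * X ^ q + C (-(α * ν)) * X ^ 1 + C N * X ^ 0 := by
    rw [hf]; simp only [C_neg, C_mul, pow_one, pow_zero, mul_one]; ring
  have hfc : ∀ i, f.coeff i = (if i = q then α else 0) + (if i = 1 then -(α * ν) else 0)
      + (if i = 0 then N else 0) := by
    intro i
    rw [hfexp]
    simp only [coeff_add, coeff_C_mul_X_pow]
  have hfd : f.natDegree = q := by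
    apply le_antisymm
    · rw [natDegree_le_iff_coeff_eq_zero]
      intro i hi
      rw [hfc, if_neg (by omega), if_neg (by omega), if_neg (by omega)]; simp
    · apply le_natDegree_of_ne_zero
      rw [hfc, if_pos rfl, if_neg (by omega), if_neg (by omega)]
      simpa using hα0
  set g : R[X] := f.reverse with hg
  have hgexp : g = C N * X ^ q + C (-(α * ν)) * X ^ (q - 1) + C α * X ^ 0 := by
    rw [hg, reverse, hfd]
    conv_lhs => rw [hfexp]
    rw [reflect_add, reflect_add, reflect_C_mul_X_pow, reflect_C_mul_X_pow, reflect_C_mul_X_pow,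
      revAt_le (le_refl q), revAt_le (by omega : 1 ≤ q), revAt_le (by omega : 0 ≤ q)]
    simp only [Nat.sub_self, Nat.sub_zero]
    ring
  have hgc : ∀ i, g.coeff i = (if i = q then N else 0) + (if i = q - 1 then -(α * ν) else 0)
      + (if i = 0 then α else 0) := by
    intro i
    rw [hgexp]
    simp only [coeff_add, coeff_C_mul_X_pow]
  have hgd : g.natDegree = q := by
    apply le_antisymm
    · rw [natDegree_le_iff_coeff_eq_zero]
      intro i hi
      rw [hgc, if_neg (by omega), if_neg (by omega), if_neg (by omega)]; simp
    · apply le_natDegree_of_ne_zero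
      rw [hgc, if_pos rfl, if_neg (by omega), if_neg (by omega)]
      simpa using hN0
  have hg0 : g ≠ 0 := by
    intro h
    rw [h, natDegree_zero] at hgd
    omega
  have hgirr : Irreducible g := by
    apply irreducible_of_eisenstein_criterion hP
    · rw [leadingCoeff, hgd, hgc, if_pos rfl, if_neg (by omega), if_neg (by omega)]
      simpa using hN
    · intro i hi
      rw [degree_eq_natDegree hg0, hgd] at hi
      have hi' : i < q := by exact_mod_cast hi
      rw [hgc, if_neg (by omega)]
      refine P.add_mem (P.add_mem P.zero_mem ?_) ?_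
      · split_ifs
        · exact P.neg_mem (P.mul_mem_right _ hα)
        · exact P.zero_mem
      · split_ifs
        · exact hα
        · exact P.zero_mem
    · rw [degree_eq_natDegree hg0, hgd]
      exact_mod_cast (by omega : 0 < q)
    · rw [hgc, if_neg (by omega), if_neg (by omega), if_pos rfl]
      simpa using hα2
    · intro c hc
      rw [C_dvd_iff_dvd_coeff] at hc
      apply hprim c
      · have := hc 0
        rwa [hgc, if_neg (by omega), if_neg (by omega), if_pos rfl, zero_add, zero_add] at this
      · have := hc q
        rwa [hgc, if_pos rfl, if_neg (by omega), if_neg (by omega), add_zero, add_zero] at this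
  apply irreducible_of_reverse _ (by omega) hgirr
  rw [hfc, if_neg (by omega), if_neg (by omega), if_pos rfl]
  simpa using hN0

end Pool.Agent.Lib.MP_291982_ag
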