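import Mathlib
import Pool.Agent.Lib.MP_291982_ag.Defs
import Pool.Agent.Lib.MP_291982_ag.Basic
import Pool.Agent.Lib.MP_291982_ag.Irred

/-!
The hypersurface `Y₀ Y₁ = ∑_{j ≥ 3} Y_j²`, where `Y_i = X_i^q - X_i X_2^(q-1)`.
-/

namespace Pool.Agent.Lib.MP_291982_ag

open MvPolynomial

section tl

variable {R : Type*} [CommRing R] {σ : Type*}

/-- `X_i^q - X_i w^(q-1)`. -/
noncomputable def tl (R : Type*) [CommRing R] {σ : Type*} (q : ℕ) (w i : σ) : MvPolynomial σ R :=
  X i ^ q - X i * X w ^ (q - 1)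

theorem map_tl {S : Type*} [CommRing S] (φ : R →+* S) (q : ℕ) (w i : σ) :
    map φ (tl R q w i) = tl S q w i := by
  simp [tl]

theorem frobDer_tl (q : ℕ) (hq1 : 1 ≤ q) (hq : (q : R) = 0) (w i : σ) :
    frobDer R σ q (tl R q w i) = - X w ^ (q - 1) * tl R q w i :=
  frobDer_tilde q hq1 hq i w

theorem natCast_eq_zero' {q : ℕ} (hq : (q : R) = 0) : ((q : ℕ) : MvPolynomial σ R) = 0 := by
  rw [← map_natCast (C : R →+* MvPolynomial σ R), hq, C_0]

theorem pderiv_tl_self (q : ℕ) (hq : (q : R) = 0) {w i : σ} (h : w ≠ i) :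
    pderiv i (tl R q w i) = - X w ^ (q - 1) := by
  rw [tl, map_sub, pderiv_pow, pderiv_mul, pderiv_pow, pderiv_X_self, pderiv_X_of_ne h,
    natCast_eq_zero' hq]
  ring

theorem pderiv_tl_ne (q : ℕ) {w i j : σ} (h : w ≠ i) (hj : j ≠ i) :
    pderiv i (tl R q w j) = 0 := by
  rw [tl, map_sub, pderiv_pow, pderiv_mul, pderiv_pow, pderiv_X_of_ne hj, pderiv_X_of_ne h]
  ring

theorem isHomogeneous_tl (q : ℕ) (hq : 1 ≤ q) (w i : σ) : (tl R q w i).IsHomogeneous q := by
  rw [tl]
  apply IsHomogeneous.sub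
  · exact isHomogeneous_X_pow i q
  · have := (isHomogeneous_X R i).mul (isHomogeneous_X_pow (R := R) w (q - 1))
    rwa [Nat.add_sub_cancel' hq] at this

end tl

/-- The hypersurface `Y₀ Y₁ = ∑_{j ≥ 3} Y_j²`. -/
noncomputable def quad (R : Type*) [CommRing R] (q m : ℕ) : MvPolynomial (Fin (m + 3 + 1)) R :=
  tl R q 2 0 * tl R q 2 1 - ∑ j : Fin (m + 1), tl R q 2 j.succ.succ.succ ^ 2

theorem map_quad {R S : Type*} [CommRing R] [CommRing S] (φ : R →+* S) (q m : ℕ) :
    map φ (quad R q m) = quad S q m := by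
  simp [quad, map_tl]

theorem isHomogeneous_quad {R : Type*} [CommRing R] (q m : ℕ) (hq : 1 ≤ q) :
    (quad R q m).IsHomogeneous (q + q) := by
  rw [quad]
  apply IsHomogeneous.sub
  · exact (isHomogeneous_tl q hq _ _).mul (isHomogeneous_tl q hq _ _)
  · apply IsHomogeneous.sum
    intro j _
    have := (isHomogeneous_tl (R := R) q hq 2 j.succ.succ.succ).pow 2
    rwa [mul_two] at this

theorem frobDer_quad {R : Type*} [CommRing R] (q m : ℕ) (hq1 : 1 ≤ q) (hq : (q : R) = 0) :
    frobDer R _ q (quad R q m) = quad R q m * (-2 * X 2 ^ (q - 1)) := by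
  rw [quad, map_sub, map_sum, Derivation.leibniz, frobDer_tl q hq1 hq, frobDer_tl q hq1 hq]
  have : ∀ j : Fin (m + 1), frobDer R (Fin (m + 3 + 1)) q (tl R q 2 j.succ.succ.succ ^ 2) =
      (tl R q 2 j.succ.succ.succ ^ 2) * (-2 * X 2 ^ (q - 1)) := by
    intro j
    rw [pow_two, Derivation.leibniz, frobDer_tl q hq1 hq]
    simp only [smul_eq_mul]
    ring
  simp only [this, ← Finset.sum_mul, smul_eq_mul]
  ring

theorem fin_two_val (m : ℕ) : ((2 : Fin (m + 3 + 1)) : ℕ) = 2 := by
  have : ((2 : Fin (m + 3 + 1)) : ℕ) = 2 % (m + 3 + 1) := rfl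
  rw [this]
  exact Nat.mod_eq_of_lt (by omega)

theorem fin_one_val (m : ℕ) : ((1 : Fin (m + 3 + 1)) : ℕ) = 1 := by
  simp

theorem two_ne_zero_fin (m : ℕ) : (2 : Fin (m + 3 + 1)) ≠ 0 := by
  intro h
  have := congrArg Fin.val h
  rw [fin_two_val] at this
  simp at this

theorem pderiv_zero_quad {R : Type*} [CommRing R] (q m : ℕ) (hq : (q : R) = 0) :
    pderiv 0 (quad R q m) = - X 2 ^ (q - 1) * tl R q 2 1 := by
  have h20 : (2 : Fin (m + 3 + 1)) ≠ 0 := two_ne_zero_fin m
  have h10 : (1 : Fin (m + 3 + 1)) ≠ 0 := by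
    intro h; have := congrArg Fin.val h; simp at this
  have hs : ∀ j : Fin (m + 1), (j.succ.succ.succ : Fin (m + 3 + 1)) ≠ 0 := fun j =>
    Fin.succ_ne_zero _
  rw [quad, map_sub, map_sum, pderiv_mul, pderiv_tl_self q hq h20, pderiv_tl_ne q h20 h10]
  have : ∀ j : Fin (m + 1), pderiv 0 (tl R q 2 (j.succ.succ.succ : Fin (m + 3 + 1)) ^ 2) = 0 := by
    intro j
    rw [pderiv_pow, pderiv_tl_ne q h20 (hs j), mul_zero]
  simp only [this, Finset.sum_const_zero]
  ring

theorem pderiv_one_quad {R : Type*} [CommRing R] (q m : ℕ) (hq : (q : R) = 0) :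
    pderiv 1 (quad R q m) = - X 2 ^ (q - 1) * tl R q 2 0 := by
  have h21 : (2 : Fin (m + 3 + 1)) ≠ 1 := by
    intro h; have := congrArg Fin.val h; rw [fin_two_val, fin_one_val] at this; omega
  have h01 : (0 : Fin (m + 3 + 1)) ≠ 1 := by
    intro h; have := congrArg Fin.val h; simp at this
  have hs : ∀ j : Fin (m + 1), (j.succ.succ.succ : Fin (m + 3 + 1)) ≠ 1 := by
    intro j h
    have := congrArg Fin.val h
    simp at this
  rw [quad, map_sub, map_sum, pderiv_mul, pderiv_tl_self q hq h21, pderiv_tl_ne q h21 h01]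
  have : ∀ j : Fin (m + 1), pderiv 1 (tl R q 2 (j.succ.succ.succ : Fin (m + 3 + 1)) ^ 2) = 0 := by
    intro j
    rw [pderiv_pow, pderiv_tl_ne q h21 (hs j), mul_zero]
  simp only [this, Finset.sum_const_zero]
  ring

/-- A common divisor of `U^q - v U` and of a nonzero constant is a unit. -/
theorem isUnit_of_dvd_of_dvd {R : Type*} [CommRing R] [IsDomain R] {q : ℕ} (hq : 2 ≤ q)
    {v b : R} (hb : b ≠ 0) {c : Polynomial R}
    (h1 : c ∣ Polynomial.X ^ q - Polynomial.C v * Polynomial.X) (h2 : c ∣ Polynomial.C b) :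
    IsUnit c := by
  have hd : c.natDegree = 0 := by
    have := Polynomial.natDegree_le_of_dvd h2 (by simpa using hb)
    simpa using this
  rw [Polynomial.eq_C_of_natDegree_eq_zero hd] at h1 ⊢
  rw [Polynomial.C_dvd_iff_dvd_coeff] at h1
  have h3 := h1 q
  have h4 : (Polynomial.X ^ q - Polynomial.C v * Polynomial.X : Polynomial R).coeff q = 1 := by
    rw [Polynomial.coeff_sub, Polynomial.coeff_X_pow_self, Polynomial.coeff_C_mul,
      Polynomial.coeff_X, if_neg (by omega)]
    simp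
  rw [h4] at h3
  exact (isUnit_of_dvd_one h3).map Polynomial.C

theorem irreducible_quad (k : Type*) [Field k] (q m : ℕ) (hq : 2 ≤ q) :
    Irreducible (quad k q m) := by
  have e1 : MvPolynomial.finSuccEquiv k (m + 3) (quad k q m) =
      Polynomial.C (tl k q 1 0) * (Polynomial.X ^ q -
        Polynomial.C ((X 1 : MvPolynomial (Fin (m + 3)) k) ^ (q - 1)) * Polynomial.X)
      + Polynomial.C (-∑ j : Fin (m + 1), tl k q 1 (j.succ.succ : Fin (m + 3)) ^ 2) := by
    have h2 : (2 : Fin (m + 3 + 1)) = Fin.succ 1 := by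
      ext
      rw [fin_two_val, Fin.val_succ]
      have : ((1 : Fin (m + 3)) : ℕ) = 1 % (m + 3) := rfl
      rw [this, Nat.mod_eq_of_lt (by omega)]
    have h1 : (1 : Fin (m + 3 + 1)) = Fin.succ 0 := by
      ext; simp
    rw [quad, h2, h1]
    simp only [tl, map_sub, map_mul, map_pow, map_sum, finSuccEquiv_X_zero,
      finSuccEquiv_X_succ, map_neg]
    ring
  rw [← MulEquiv.irreducible_iff (MvPolynomial.finSuccEquiv k (m + 3)), e1]
  have hv : ∀ (x : Fin (m + 3) → k), eval x (-∑ j : Fin (m + 1), tl k q 1 (j.succ.succ : Fin (m + 3)) ^ 2)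
      = -∑ j : Fin (m + 1), (x j.succ.succ ^ q - x j.succ.succ * x 1 ^ (q - 1)) ^ 2 := by
    intro x
    simp [tl]
  have hX : Prime (X 0 : MvPolynomial (Fin (m + 3)) k) := X_prime
  have e2 : tl k q 1 (0 : Fin (m + 3)) = X 0 * (X 0 ^ (q - 1) - X 1 ^ (q - 1)) := by
    rw [tl, mul_sub, mul_pow_sub_one (by omega)]
  refine irreducible_trinomial (P := Ideal.span {X 0}) ?_ hq ?_ ?_ ?_ ?_
  · rwa [Ideal.span_singleton_prime hX.ne_zero]
  · rw [Ideal.mem_span_singleton, e2]
    exact dvd_mul_right _ _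
  · rw [Ideal.span_singleton_pow, Ideal.mem_span_singleton, e2, pow_two]
    intro h
    rw [mul_dvd_mul_iff_left hX.ne_zero] at h
    obtain ⟨c, hc⟩ := h
    have := congrArg (eval (fun i : Fin (m + 3) => if i = 0 then (0 : k) else 1)) hc
    simp only [map_sub, map_pow, eval_X, map_mul, if_true, zero_mul] at this
    rw [zero_pow (by omega), if_neg (by simp), one_pow, zero_sub] at this
    exact one_ne_zero (neg_eq_zero.1 this)
  · rw [Ideal.mem_span_singleton]
    rintro ⟨c, hc⟩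
    have h1ne : (1 : Fin (m + 3)) ≠ Fin.succ (Fin.succ 0) := by
      intro h
      have h' := congrArg Fin.val h
      have : ((1 : Fin (m + 3)) : ℕ) = 1 % (m + 3) := rfl
      rw [this, Nat.mod_eq_of_lt (by omega)] at h'
      simp only [Fin.val_succ, Fin.val_zero] at h'
      omega
    have h0ne : (0 : Fin (m + 3)) ≠ Fin.succ (Fin.succ 0) := by
      intro h
      have h' := congrArg Fin.val h
      simp only [Fin.val_succ, Fin.val_zero] at h'
      omega
    have := congrArg (eval (fun i : Fin (m + 3) => if i = (Fin.succ (Fin.succ 0) : Fin (m + 3)) then (1 : k) else 0)) hc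
    rw [hv] at this
    rw [map_mul, eval_X, if_neg h0ne, if_neg h1ne, zero_mul, neg_eq_zero, Fin.sum_univ_succ,
      if_pos rfl, Finset.sum_eq_zero] at this
    · rw [zero_pow (by omega)] at this
      simp at this
    · intro i _
      have hne : (Fin.succ (Fin.succ (Fin.succ i)) : Fin (m + 3)) ≠ Fin.succ (Fin.succ 0) := by
        intro h
        have h' := congrArg Fin.val h
        simp only [Fin.val_succ, Fin.val_zero] at h'
        omega
      rw [if_neg hne, zero_pow (by omega)]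
      simp
  · intro c hc1 hc2
    have g1 : MvPolynomial.finSuccEquiv k (m + 2) (tl k q 1 (0 : Fin (m + 3))) =
        Polynomial.X ^ q - Polynomial.C (X 0 ^ (q - 1)) * Polynomial.X := by
      have h1 : (1 : Fin (m + 2 + 1)) = Fin.succ 0 := by
        ext; simp
      rw [tl]
      change MvPolynomial.finSuccEquiv k (m + 2) (X 0 ^ q - X 0 * X (1 : Fin (m + 2 + 1)) ^ (q - 1)) = _
      rw [h1]
      simp only [map_sub, map_mul, map_pow, finSuccEquiv_X_zero, finSuccEquiv_X_succ]
      ring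
    have g2 : MvPolynomial.finSuccEquiv k (m + 2)
        (-∑ j : Fin (m + 1), tl k q 1 (j.succ.succ : Fin (m + 3)) ^ 2) =
        Polynomial.C (-∑ j : Fin (m + 1), tl k q 0 (j.succ : Fin (m + 2)) ^ 2) := by
      have h1 : (1 : Fin (m + 2 + 1)) = Fin.succ 0 := by
        ext; simp
      simp only [tl]
      change MvPolynomial.finSuccEquiv k (m + 2)
        (-∑ j : Fin (m + 1), (X (j.succ.succ : Fin (m + 2 + 1)) ^ q - X (j.succ.succ : Fin (m + 2 + 1))
          * X (1 : Fin (m + 2 + 1)) ^ (q - 1)) ^ 2) = _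
      rw [h1]
      simp only [map_sub, map_mul, map_pow, map_sum, finSuccEquiv_X_succ, map_neg]
    have hu : IsUnit (MvPolynomial.finSuccEquiv k (m + 2) c) := by
      refine isUnit_of_dvd_of_dvd (b := -∑ j : Fin (m + 1), tl k q 0 (j.succ : Fin (m + 2)) ^ 2) hq
        ?_ (g1 ▸ map_dvd _ hc1) (g2 ▸ map_dvd _ hc2)
      intro h
      have := congrArg (eval (fun i : Fin (m + 2) => if i = (Fin.succ 0 : Fin (m + 2)) then (1 : k) else 0)) h
      simp only [tl, map_neg, map_sum, map_pow, map_sub, map_mul, eval_X, map_zero] at this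
      rw [neg_eq_zero, Fin.sum_univ_succ, if_pos rfl, if_neg (by simp),
        Finset.sum_eq_zero] at this
      · rw [zero_pow (by omega)] at this
        simp at this
      · intro i _
        rw [if_neg (by simp [Fin.ext_iff]), zero_pow (by omega)]
        simp
    exact (MulEquiv.isUnit_map (MvPolynomial.finSuccEquiv k (m + 2))).1 hu

end Pool.Agent.Lib.MP_291982_ag
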