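import Mathlib
import Pool.Agent.Lib.MP_291982_ag.Defs
import Pool.Agent.Lib.MP_291982_ag.Basic
import Pool.Agent.Lib.MP_291982_ag.Irred
import Pool.Agent.Lib.MP_291982_ag.Quadric

/-!
The hypersurface `w (Y² - X Z) + X (x^q y - x y^q) = 0`, with `X = x^q - x w^(q-1)` and so on.
Variables: `z = X 0`, `x = X 1`, `y = X 2`, `w = X 3`.
-/

namespace Pool.Agent.Lib.MP_291982_ag

open MvPolynomial

/-- The hypersurface. -/
noncomputable def chord (R : Type*) [CommRing R] (q m : ℕ) : MvPolynomial (Fin (m + 3 + 1)) R :=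
  X 3 * (tl R q 3 2 ^ 2 - tl R q 3 1 * tl R q 3 0) +
    tl R q 3 1 * (X 1 ^ q * X 2 - X 1 * X 2 ^ q)

theorem map_chord {R S : Type*} [CommRing R] [CommRing S] (φ : R →+* S) (q m : ℕ) :
    map φ (chord R q m) = chord S q m := by
  simp [chord, map_tl]

theorem isHomogeneous_chord {R : Type*} [CommRing R] (q m : ℕ) (hq : 1 ≤ q) :
    (chord R q m).IsHomogeneous (1 + (q + q)) := by
  rw [chord]
  apply IsHomogeneous.add
  · apply (isHomogeneous_X R _).mul
    apply IsHomogeneous.sub
    · have := (isHomogeneous_tl (R := R) q hq (3 : Fin (m + 3 + 1)) 2).pow 2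
      rwa [mul_two] at this
    · exact (isHomogeneous_tl q hq _ _).mul (isHomogeneous_tl q hq _ _)
  · have h1 := (isHomogeneous_tl (R := R) q hq (3 : Fin (m + 3 + 1)) 1)
    have h2 := (isHomogeneous_X_pow (R := R) (1 : Fin (m + 3 + 1)) q).mul (isHomogeneous_X R 2)
    have h3 := (isHomogeneous_X R (1 : Fin (m + 3 + 1))).mul (isHomogeneous_X_pow (R := R) 2 q)
    rw [add_comm 1 q] at h3
    have h4 := h1.mul (h2.sub h3)
    have e : q + (q + 1) = 1 + (q + q) := by ring
    rwa [e] at h4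

theorem frobDer_chord {R : Type*} [CommRing R] (q m : ℕ) (hq1 : 1 ≤ q) (hq : (q : R) = 0) :
    frobDer R _ q (chord R q m) = chord R q m * (- X 3 ^ (q - 1)) := by
  obtain ⟨r, rfl⟩ : ∃ r, q = r + 1 := ⟨q - 1, by omega⟩
  have h1 : frobDer R (Fin (m + 3 + 1)) (r + 1) (X 1 ^ (r + 1) * X 2 - X 1 * X 2 ^ (r + 1)) = 0 := by
    rw [map_sub, Derivation.leibniz, Derivation.leibniz, frobDer_X_pow _ hq, frobDer_X_pow _ hq,
      frobDer_X, frobDer_X]
    simp only [smul_eq_mul]
    ring
  rw [chord, map_add, Derivation.leibniz, Derivation.leibniz (frobDer R _ _) (tl R _ 3 1), h1,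
    map_sub, pow_two,
    Derivation.leibniz, Derivation.leibniz, frobDer_tl _ hq1 hq, frobDer_tl _ hq1 hq,
    frobDer_tl _ hq1 hq, frobDer_X]
  simp only [smul_eq_mul, Nat.add_sub_cancel]
  ring

theorem fin_three_val (m : ℕ) : ((3 : Fin (m + 3 + 1)) : ℕ) = 3 := by
  have : ((3 : Fin (m + 3 + 1)) : ℕ) = 3 % (m + 3 + 1) := rfl
  rw [this]
  exact Nat.mod_eq_of_lt (by omega)

theorem fin_ne_aux {m : ℕ} {a b : Fin (m + 3 + 1)} (h : (a : ℕ) ≠ b) : a ≠ b := by
  intro h'; rw [h'] at h; exact h rfl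

theorem pderiv_zero_chord {R : Type*} [CommRing R] (q m : ℕ) (hq : (q : R) = 0) :
    pderiv 0 (chord R q m) = X 3 * X 3 ^ (q - 1) * tl R q 3 1 := by
  have h30 : (3 : Fin (m + 3 + 1)) ≠ 0 := fin_ne_aux (by rw [fin_three_val]; simp)
  have h20 : (2 : Fin (m + 3 + 1)) ≠ 0 := fin_ne_aux (by rw [fin_two_val]; simp)
  have h10 : (1 : Fin (m + 3 + 1)) ≠ 0 := fin_ne_aux (by rw [fin_one_val]; simp)
  rw [chord, map_add, pderiv_mul, map_sub, pderiv_pow, pderiv_mul, pderiv_mul, map_sub,
    pderiv_mul, pderiv_mul, pderiv_pow, pderiv_pow,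
    pderiv_tl_self q hq h30, pderiv_tl_ne q h30 h10, pderiv_tl_ne q h30 h20,
    pderiv_X_of_ne h30, pderiv_X_of_ne h20, pderiv_X_of_ne h10]
  ring

theorem pderiv_two_chord {R : Type*} [CommRing R] (q m : ℕ) (hq : (q : R) = 0) :
    pderiv 2 (chord R q m) = - 2 * (X 3 * X 3 ^ (q - 1)) * tl R q 3 2 + tl R q 3 1 * X 1 ^ q := by
  have h32 : (3 : Fin (m + 3 + 1)) ≠ 2 := fin_ne_aux (by rw [fin_three_val, fin_two_val]; simp)
  have h02 : (0 : Fin (m + 3 + 1)) ≠ 2 := fin_ne_aux (by rw [fin_two_val]; simp)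
  have h12 : (1 : Fin (m + 3 + 1)) ≠ 2 := fin_ne_aux (by rw [fin_two_val, fin_one_val]; simp)
  rw [chord, map_add, pderiv_mul, map_sub, pderiv_pow, pderiv_mul, pderiv_mul, map_sub,
    pderiv_mul, pderiv_mul, pderiv_pow, pderiv_pow,
    pderiv_tl_self q hq h32, pderiv_tl_ne q h32 h12, pderiv_tl_ne q h32 h02,
    pderiv_X_of_ne h32, pderiv_X_of_ne h12, pderiv_X_self, natCast_eq_zero' hq]
  push_cast
  ring

theorem fin_one_val' (m : ℕ) : ((1 : Fin (m + 3)) : ℕ) = 1 := by
  simp

theorem fin_two_val' (m : ℕ) : ((2 : Fin (m + 3)) : ℕ) = 2 := by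
  have : ((2 : Fin (m + 3)) : ℕ) = 2 % (m + 3) := rfl
  rw [this]
  exact Nat.mod_eq_of_lt (by omega)

theorem irreducible_chord (k : Type*) [Field k] (q m : ℕ) (hq : 2 ≤ q) :
    Irreducible (chord k q m) := by
  have h20 : (2 : Fin (m + 3)) ≠ 0 := by
    intro h; have := congrArg Fin.val h; rw [fin_two_val'] at this; simp at this
  have h10 : (1 : Fin (m + 3)) ≠ 0 := by
    intro h; have := congrArg Fin.val h; rw [fin_one_val'] at this; simp at this
  have h21 : (2 : Fin (m + 3)) ≠ 1 := by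
    intro h; have := congrArg Fin.val h; rw [fin_one_val', fin_two_val'] at this; omega
  set α : MvPolynomial (Fin (m + 3)) k := - (X 2 * tl k q 2 0) with hα
  set N : MvPolynomial (Fin (m + 3)) k := X 2 * tl k q 2 1 ^ 2 +
    tl k q 2 0 * (X 0 ^ q * X 1 - X 0 * X 1 ^ q) with hN
  have e1 : MvPolynomial.finSuccEquiv k (m + 3) (chord k q m) =
      Polynomial.C α * (Polynomial.X ^ q -
        Polynomial.C ((X 2 : MvPolynomial (Fin (m + 3)) k) ^ (q - 1)) * Polynomial.X)
      + Polynomial.C N := by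
    have h3 : (3 : Fin (m + 3 + 1)) = Fin.succ 2 := by
      ext; rw [fin_three_val, Fin.val_succ, fin_two_val']
    have h2 : (2 : Fin (m + 3 + 1)) = Fin.succ 1 := by
      ext; rw [fin_two_val, Fin.val_succ, fin_one_val']
    have h1 : (1 : Fin (m + 3 + 1)) = Fin.succ 0 := by
      ext; simp
    rw [chord, h3, h2, h1, hα, hN]
    simp only [tl, map_sub, map_mul, map_pow, map_add, finSuccEquiv_X_zero,
      finSuccEquiv_X_succ, map_neg]
    ring
  rw [← MulEquiv.irreducible_iff (MvPolynomial.finSuccEquiv k (m + 3)), e1]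
  have hX : Prime (X 0 : MvPolynomial (Fin (m + 3)) k) := X_prime
  have e2 : tl k q 2 (0 : Fin (m + 3)) = X 0 * (X 0 ^ (q - 1) - X 2 ^ (q - 1)) := by
    rw [tl, mul_sub, mul_pow_sub_one (by omega)]
  refine irreducible_trinomial (P := Ideal.span {X 0}) ?_ hq ?_ ?_ ?_ ?_
  · rwa [Ideal.span_singleton_prime hX.ne_zero]
  · rw [Ideal.mem_span_singleton, hα, e2]
    exact ⟨-(X 2 * (X 0 ^ (q - 1) - X 2 ^ (q - 1))), by ring⟩
  · rw [Ideal.span_singleton_pow, Ideal.mem_span_singleton, hα, e2, pow_two]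
    intro h
    have h' : X 0 * X 0 ∣ X 0 * (X 2 * (X 0 ^ (q - 1) - X 2 ^ (q - 1)) :
        MvPolynomial (Fin (m + 3)) k) := by
      rw [dvd_neg] at h
      convert h using 1
      ring
    rw [mul_dvd_mul_iff_left hX.ne_zero] at h'
    obtain ⟨c, hc⟩ := h'
    have := congrArg (eval (fun i : Fin (m + 3) => if i = 0 then (0 : k) else 1)) hc
    simp only [map_sub, map_pow, eval_X, map_mul, if_true, zero_mul] at this
    rw [zero_pow (by omega), if_neg h20, one_pow, zero_sub, one_mul] at this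
    exact one_ne_zero (neg_eq_zero.1 this)
  · rw [Ideal.mem_span_singleton]
    rintro ⟨c, hc⟩
    have := congrArg (aeval (fun i : Fin (m + 3) => if i = 0 then (0 : Polynomial k) else
      if i = 1 then Polynomial.X else 1)) hc
    rw [hN] at this
    simp only [tl, map_sub, map_pow, aeval_X, map_mul, map_add, if_true, zero_mul, if_neg h20,
      if_neg h10, if_neg h21, one_pow, mul_one, one_mul] at this
    rw [zero_pow (by omega), zero_sub, neg_zero, zero_mul, add_zero] at this
    have h3 : (Polynomial.X ^ q - Polynomial.X : Polynomial k) = 0 := by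
      exact pow_eq_zero_iff (n := 2) (by norm_num) |>.1 this
    have h4 := congrArg (fun f => Polynomial.coeff f q) h3
    simp only [Polynomial.coeff_sub, Polynomial.coeff_X_pow_self, Polynomial.coeff_X,
      Polynomial.coeff_zero] at h4
    rw [if_neg (by omega)] at h4
    simp at h4
  · intro c hc1 hc2
    have hc1' : c ∣ X 2 * tl k q 2 0 := by rwa [hα, dvd_neg] at hc1
    have hc3 : c ∣ X 2 ^ 2 * tl k q 2 1 ^ 2 := by
      have h1 : c ∣ X 2 * N := hc2.mul_left _
      have h2 : c ∣ (X 2 * tl k q 2 0) * (X 0 ^ q * X 1 - X 0 * X 1 ^ q) := hc1'.mul_right _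
      have h3 := dvd_sub h1 h2
      convert h3 using 1
      rw [hN]; ring
    -- pass to polynomials in `X 0`
    set E := MvPolynomial.finSuccEquiv k (m + 2) with hE
    have k2 : (2 : Fin (m + 2 + 1)) = Fin.succ 1 := by
      ext
      have a1 : ((2 : Fin (m + 2 + 1)) : ℕ) = 2 := fin_two_val' m
      rw [a1, Fin.val_succ]
      simp
    have k1 : (1 : Fin (m + 2 + 1)) = Fin.succ 0 := by
      ext; simp
    have g1 : E (X 2 * tl k q 2 (0 : Fin (m + 3))) = Polynomial.C (X 1) *
        (Polynomial.X ^ q - Polynomial.C (X 1 ^ (q - 1)) * Polynomial.X) := by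
      rw [tl]
      change E (X (2 : Fin (m + 2 + 1)) * (X 0 ^ q - X 0 * X (2 : Fin (m + 2 + 1)) ^ (q - 1))) = _
      rw [k2]
      simp only [hE, map_sub, map_mul, map_pow, finSuccEquiv_X_zero, finSuccEquiv_X_succ]
      ring
    have g2 : E (X 2 ^ 2 * tl k q 2 (1 : Fin (m + 3)) ^ 2) =
        Polynomial.C (X 1 ^ 2 * (X 0 ^ q - X 0 * X 1 ^ (q - 1)) ^ 2) := by
      rw [tl]
      change E (X (2 : Fin (m + 2 + 1)) ^ 2 * (X (1 : Fin (m + 2 + 1)) ^ q -
        X (1 : Fin (m + 2 + 1)) * X (2 : Fin (m + 2 + 1)) ^ (q - 1)) ^ 2) = _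
      rw [k2, k1]
      simp only [hE, map_sub, map_mul, map_pow, finSuccEquiv_X_succ]
    have hb : (X 1 ^ 2 * (X 0 ^ q - X 0 * X 1 ^ (q - 1)) ^ 2 : MvPolynomial (Fin (m + 2)) k) ≠ 0 := by
      intro h
      have h5 := congrArg (aeval (fun i : Fin (m + 2) => if i = 0 then (Polynomial.X : Polynomial k)
        else 1)) h
      simp only [map_sub, map_pow, aeval_X, map_mul, if_true, map_zero] at h5
      rw [if_neg (by simp), one_pow, one_pow, one_mul, mul_one] at h5
      have h3 : (Polynomial.X ^ q - Polynomial.X : Polynomial k) = 0 := by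
        exact pow_eq_zero_iff (n := 2) (by norm_num) |>.1 h5
      have h4 := congrArg (fun f => Polynomial.coeff f q) h3
      simp only [Polynomial.coeff_sub, Polynomial.coeff_X_pow_self, Polynomial.coeff_X,
        Polynomial.coeff_zero] at h4
      rw [if_neg (by omega)] at h4
      simp at h4
    have d1 : E c ∣ Polynomial.C (X 1) *
        (Polynomial.X ^ q - Polynomial.C (X 1 ^ (q - 1)) * Polynomial.X) := g1 ▸ map_dvd E hc1'
    have d2 : E c ∣ Polynomial.C (X 1 ^ 2 * (X 0 ^ q - X 0 * X 1 ^ (q - 1)) ^ 2) :=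
      g2 ▸ map_dvd E hc3
    have hd : (E c).natDegree = 0 := by
      have h := Polynomial.natDegree_le_of_dvd d2 (Polynomial.C_ne_zero.2 hb)
      rw [Polynomial.natDegree_C] at h
      omega
    have hC := Polynomial.eq_C_of_natDegree_eq_zero hd
    rw [hC, Polynomial.C_dvd_iff_dvd_coeff] at d1
    have h3 := d1 q
    rw [Polynomial.coeff_C_mul, Polynomial.coeff_sub, Polynomial.coeff_X_pow_self,
      Polynomial.coeff_C_mul, Polynomial.coeff_X, if_neg (by omega), mul_zero, sub_zero,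
      mul_one] at h3
    -- `E c = C c''` with `c'' ∣ X 1`
    have hXp : Prime (X 1 : MvPolynomial (Fin (m + 2)) k) := X_prime
    rcases (hXp.irreducible.dvd_iff).1 h3 with hu | ha
    · have : IsUnit (E c) := by
        rw [hC]; exact hu.map Polynomial.C
      exact (MulEquiv.isUnit_map E).1 this
    · exfalso
      have h5 : (X 1 : MvPolynomial (Fin (m + 2)) k) ∣ (E c).coeff 0 := ha.dvd
      have h6 : E (X 2) ∣ E c := by
        rw [hC]
        have : E (X 2) = Polynomial.C (X 1) := by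
          change E (X (2 : Fin (m + 2 + 1))) = _
          rw [k2, hE, finSuccEquiv_X_succ]
        rw [this]
        exact map_dvd Polynomial.C h5
      have h7 : X 2 ∣ c := (map_dvd_iff E).1 h6
      have h8 : X 2 ∣ N := h7.trans hc2
      obtain ⟨u, hu⟩ := h8
      have := congrArg (aeval (fun i : Fin (m + 3) => if i = 2 then (0 : Polynomial k) else
        if i = 0 then Polynomial.X else 1)) hu
      rw [hN] at this
      simp only [tl, map_sub, map_pow, aeval_X, map_mul, map_add, if_true, zero_mul, if_neg h20.symm,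
        if_neg h10, if_neg h21.symm, one_pow, mul_one, zero_add] at this
      rw [zero_pow (by omega), mul_zero, sub_zero] at this
      have h9 : (Polynomial.X ^ q - Polynomial.X : Polynomial k) = 0 := by
        rcases mul_eq_zero.1 this with h | h
        · exact absurd h (pow_ne_zero _ Polynomial.X_ne_zero)
        · exact h
      have h4 := congrArg (fun f => Polynomial.coeff f q) h9
      simp only [Polynomial.coeff_sub, Polynomial.coeff_X_pow_self, Polynomial.coeff_X,
        Polynomial.coeff_zero] at h4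
      rw [if_neg (by omega)] at h4
      simp at h4

end Pool.Agent.Lib.MP_291982_ag
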