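import Mathlib
import Pool.Agent.Lib.MP_291982_ag.Defs

/-!
Algebra maps between polynomial rings which send each variable to a monomial or to `0`, and their
kernels: these are compatible with extension of scalars.
-/

namespace Pool.Agent.Lib.MP_291982_ag

open MvPolynomial

variable {σ τ : Type*}

/-- The value at a variable. -/
noncomputable def monVal (R : Type*) [CommRing R] (e : σ → Option (τ →₀ ℕ)) (i : σ) :
    MvPolynomial τ R :=
  match e i with
  | none => 0
  | some u => monomial u 1

/-- The algebra map sending `X i` to the monomial `e i` (or to zero when `e i = none`). -/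
noncomputable def monMap (R : Type*) [CommRing R] (e : σ → Option (τ →₀ ℕ)) :
    MvPolynomial σ R →ₐ[R] MvPolynomial τ R :=
  aeval (monVal R e)

theorem monMap_X (R : Type*) [CommRing R] (e : σ → Option (τ →₀ ℕ)) (i : σ) :
    monMap R e (X i) = monVal R e i := by
  rw [monMap, aeval_X]

theorem map_monVal {R S : Type*} [CommRing R] [CommRing S] (φ : R →+* S)
    (e : σ → Option (τ →₀ ℕ)) (i : σ) : map φ (monVal R e i) = monVal S e i := by
  unfold monVal
  cases e i <;> simp

theorem map_monMap {R S : Type*} [CommRing R] [CommRing S] (φ : R →+* S)
    (e : σ → Option (τ →₀ ℕ)) (f : MvPolynomial σ R) :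
    map φ (monMap R e f) = monMap S e (map φ f) := by
  rw [monMap, monMap]
  induction f using MvPolynomial.induction_on with
  | C a => simp
  | add p q hp hq => simp only [map_add, hp, hq]
  | mul_X p i hp => simp only [map_mul, hp, aeval_X, map_X, map_monVal]

/-- The submonoid consisting of `0` and the monomials with coefficient one. -/
def monSub (R : Type*) [CommRing R] (τ : Type*) : Submonoid (MvPolynomial τ R) where
  carrier := {f | f = 0 ∨ ∃ u, f = monomial u 1}
  one_mem' := Or.inr ⟨0, rfl⟩
  mul_mem' := by
    rintro a b (rfl | ⟨u, rfl⟩) (rfl | ⟨v, rfl⟩)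
    · left; simp
    · left; simp
    · left; simp
    · right; exact ⟨u + v, by simp [monomial_mul]⟩

theorem monMap_monomial (R : Type*) [CommRing R] (e : σ → Option (τ →₀ ℕ)) (d : σ →₀ ℕ) :
    monMap R e (monomial d 1) = 0 ∨ ∃ u, monMap R e (monomial d 1) = monomial u 1 := by
  change monMap R e (monomial d 1) ∈ monSub R τ
  rw [monMap, aeval_monomial, map_one, one_mul]
  apply Submonoid.prod_mem
  intro i _
  apply Submonoid.pow_mem
  change monVal R e i = 0 ∨ _
  unfold monVal
  cases e i with
  | none => left; rfl
  | some u => right; exact ⟨u, rfl⟩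

/-- The kernel of `monMap` over `k` is generated by the kernel over the subfield `K`. -/
theorem map_ker_monMap (K k : Type*) [Field K] [Field k] [Algebra K k]
    (e : σ → Option (τ →₀ ℕ)) :
    (RingHom.ker (monMap K e)).map (map (algebraMap K k) : MvPolynomial σ K →+* _) =
      RingHom.ker (monMap k e) := by
  classical
  have hinj : Function.Injective (map (algebraMap K k) : MvPolynomial τ K →+* MvPolynomial τ k) :=
    map_injective _ (algebraMap K k).injective
  have hmon : ∀ d : σ →₀ ℕ, monMap k e (monomial d 1) =
      map (algebraMap K k) (monMap K e (monomial d 1)) := by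
    intro d
    rw [map_monMap, map_monomial, (algebraMap K k).map_one]
  apply le_antisymm
  · rw [Ideal.map_le_iff_le_comap]
    intro f hf
    rw [RingHom.mem_ker] at hf
    rw [Ideal.mem_comap, RingHom.mem_ker, ← map_monMap, hf, map_zero]
  · set J := (RingHom.ker (monMap K e)).map (map (algebraMap K k) : MvPolynomial σ K →+* _)
      with hJ
    let ψ : MvPolynomial τ k →ₗ[k] (MvPolynomial σ k ⧸ J) :=
      (basisMonomials τ k).constr k (fun u =>
        if h : ∃ d, monMap k e (monomial d 1) = monomial u 1 then
          Ideal.Quotient.mkₐ k J (monomial h.choose 1) else 0)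
    have hψ : ∀ u, ψ (monomial u 1) =
        if h : ∃ d, monMap k e (monomial d 1) = monomial u 1 then
          Ideal.Quotient.mkₐ k J (monomial h.choose 1) else 0 := by
      intro u
      have := (basisMonomials τ k).constr_basis k (fun u =>
        if h : ∃ d, monMap k e (monomial d 1) = monomial u 1 then
          Ideal.Quotient.mkₐ k J (monomial h.choose 1) else 0) u
      rw [coe_basisMonomials] at this
      exact this
    have hmk : ∀ f ∈ RingHom.ker (monMap K e),
        Ideal.Quotient.mkₐ k J (map (algebraMap K k) f) = 0 := by
      intro f hf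
      rw [Ideal.Quotient.mkₐ_eq_mk, Ideal.Quotient.eq_zero_iff_mem]
      exact Ideal.mem_map_of_mem _ hf
    have key : ψ ∘ₗ (monMap k e).toLinearMap = (Ideal.Quotient.mkₐ k J).toLinearMap := by
      apply (basisMonomials σ k).ext
      intro d
      rw [coe_basisMonomials]
      change ψ (monMap k e (monomial d 1)) = Ideal.Quotient.mkₐ k J (monomial d 1)
      rcases monMap_monomial K e d with h | ⟨u, h⟩
      · have h1 : monMap k e (monomial d 1) = 0 := by
          rw [hmon, h, map_zero]
        rw [h1, map_zero]
        have := hmk (monomial d 1) (by rw [RingHom.mem_ker]; exact h)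
        rw [map_monomial, (algebraMap K k).map_one] at this
        exact this.symm
      · have h1 : monMap k e (monomial d 1) = monomial u 1 := by
          rw [hmon, h, map_monomial, (algebraMap K k).map_one]
        rw [h1, hψ]
        have hex : ∃ d, monMap k e (monomial d 1) = monomial u 1 := ⟨d, h1⟩
        rw [dif_pos hex]
        have h2 := hex.choose_spec
        set d' := hex.choose with hd'
        have h3 : monMap K e (monomial d' 1) = monomial u 1 := by
          apply hinj
          rw [← hmon, h2, map_monomial, (algebraMap K k).map_one]
        have h4 : (monomial d' 1 - monomial d 1 : MvPolynomial σ K) ∈ RingHom.ker (monMap K e) := by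
          rw [RingHom.mem_ker, map_sub, h3, h, sub_self]
        have h5 := hmk _ h4
        rw [map_sub, map_monomial, map_monomial, (algebraMap K k).map_one, map_sub,
            sub_eq_zero] at h5
        exact h5
    intro f hf
    rw [RingHom.mem_ker] at hf
    have h1 := LinearMap.congr_fun key f
    change ψ (monMap k e f) = Ideal.Quotient.mkₐ k J f at h1
    rw [hf, map_zero, Ideal.Quotient.mkₐ_eq_mk] at h1
    exact Ideal.Quotient.eq_zero_iff_mem.1 h1.symm

/-- If all values are homogeneous of the same positive degree, the kernel is homogeneous. -/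
theorem homogeneousComponent_mem_ker_monMap (K : Type*) [Field K] (e : σ → Option (τ →₀ ℕ))
    {N : ℕ} (hN : 0 < N) (he : ∀ i, (monVal K e i).IsHomogeneous N)
    (f : MvPolynomial σ K) (hf : f ∈ RingHom.ker (monMap K e)) (d : ℕ) :
    homogeneousComponent d f ∈ RingHom.ker (monMap K e) := by
  rw [RingHom.mem_ker] at hf ⊢
  have h1 : ∀ i, (monMap K e (homogeneousComponent i f)).IsHomogeneous (N * i) := fun i =>
    (homogeneousComponent_isHomogeneous i f).aeval _ he
  by_cases hd : d ∈ Finset.range (f.totalDegree + 1)
  · have h2 : homogeneousComponent (N * d) (monMap K e f) =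
        monMap K e (homogeneousComponent d f) := by
      conv_lhs => rw [← sum_homogeneousComponent f]
      rw [map_sum, map_sum, Finset.sum_eq_single d]
      · exact homogeneousComponent_eq_self (h1 d)
      · intro i _ hid
        rw [homogeneousComponent_of_mem (h1 i), if_neg]
        intro h
        exact hid (Nat.eq_of_mul_eq_mul_left hN h).symm
      · intro h; exact absurd hd h
    rw [← h2, hf, map_zero]
  · rw [homogeneousComponent_eq_zero, map_zero]
    rw [Finset.mem_range] at hd
    omega

end Pool.Agent.Lib.MP_291982_ag
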