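import Mathlib
import Pool.Agent.Lib.MP_291982_ag.Defs
import Pool.Agent.Lib.MP_291982_ag.Basic
import Pool.Agent.Lib.MP_291982_ag.Irred
import Pool.Agent.Lib.MP_291982_ag.Quadric
import Pool.Agent.Lib.MP_291982_ag.Chord
import Pool.Agent.Lib.MP_291982_ag.MonomialMap

/-!
The twisted cubic `(z, x, y, w) = (t³, s² t, s t², s³)` on the hypersurface `chord`.
-/

namespace Pool.Agent.Lib.MP_291982_ag

open MvPolynomial

/-- Exponents of the parametrization of the twisted cubic in `ℙⁿ`, `n = m + 3`; the variables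
`s = X 0` and `t = X 1`. -/
noncomputable def cubExp (m : ℕ) (i : Fin (m + 3 + 1)) : Option (Fin 2 →₀ ℕ) :=
  if i = 0 then some (Finsupp.single 1 3)
  else if i = 1 then some (Finsupp.single 0 2 + Finsupp.single 1 1)
  else if i = 2 then some (Finsupp.single 0 1 + Finsupp.single 1 2)
  else if i = 3 then some (Finsupp.single 0 3)
  else none

theorem cub_zero (R : Type*) [CommRing R] (m : ℕ) :
    monVal R (cubExp m) 0 = X 1 ^ 3 := by
  simp [monVal, cubExp, X_pow_eq_monomial]

theorem cub_one (R : Type*) [CommRing R] (m : ℕ) :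
    monVal R (cubExp m) 1 = X 0 ^ 2 * X 1 := by
  have h10 : (1 : Fin (m + 3 + 1)) ≠ 0 := fin_ne_aux (by rw [fin_one_val]; simp)
  rw [monVal, cubExp, if_neg h10, if_pos rfl, X_pow_eq_monomial, X, monomial_mul, one_mul]

theorem cub_two (R : Type*) [CommRing R] (m : ℕ) :
    monVal R (cubExp m) 2 = X 0 * X 1 ^ 2 := by
  have h20 : (2 : Fin (m + 3 + 1)) ≠ 0 := fin_ne_aux (by rw [fin_two_val]; simp)
  have h21 : (2 : Fin (m + 3 + 1)) ≠ 1 := fin_ne_aux (by rw [fin_two_val, fin_one_val]; simp)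
  rw [monVal, cubExp, if_neg h20, if_neg h21, if_pos rfl, X_pow_eq_monomial, X, monomial_mul,
    one_mul]

theorem cub_three (R : Type*) [CommRing R] (m : ℕ) :
    monVal R (cubExp m) 3 = X 0 ^ 3 := by
  have h30 : (3 : Fin (m + 3 + 1)) ≠ 0 := fin_ne_aux (by rw [fin_three_val]; simp)
  have h31 : (3 : Fin (m + 3 + 1)) ≠ 1 := fin_ne_aux (by rw [fin_three_val, fin_one_val]; simp)
  have h32 : (3 : Fin (m + 3 + 1)) ≠ 2 := fin_ne_aux (by rw [fin_three_val, fin_two_val]; simp)
  rw [monVal, cubExp, if_neg h30, if_neg h31, if_neg h32, if_pos rfl]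
  simp [X_pow_eq_monomial]

theorem isHomogeneous_cub (R : Type*) [CommRing R] (m : ℕ) (i : Fin (m + 3 + 1)) :
    (monVal R (cubExp m) i).IsHomogeneous 3 := by
  unfold monVal cubExp
  split_ifs
  · exact isHomogeneous_monomial _ (by simp)
  · exact isHomogeneous_monomial _ (by simp)
  · exact isHomogeneous_monomial _ (by simp)
  · exact isHomogeneous_monomial _ (by simp)
  · exact isHomogeneous_zero _ _ _

/-- The parametrization. -/
noncomputable abbrev cubMap (R : Type*) [CommRing R] (m : ℕ) :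
    MvPolynomial (Fin (m + 3 + 1)) R →ₐ[R] MvPolynomial (Fin 2) R :=
  monMap R (cubExp m)

/-- The twisted cubic lies on the hypersurface. -/
theorem cubMap_chord (R : Type*) [CommRing R] (q m : ℕ) (hq : 1 ≤ q) :
    cubMap R m (chord R q m) = 0 := by
  obtain ⟨r, rfl⟩ : ∃ r, q = r + 1 := ⟨q - 1, by omega⟩
  simp only [chord, tl, map_add, map_sub, map_mul, map_pow, cubMap, monMap_X, cub_zero, cub_one,
    cub_two, cub_three, Nat.add_sub_cancel]
  ring

theorem cubMap_pderiv_zero (R : Type*) [CommRing R] (q m : ℕ) (hq1 : 1 ≤ q) (hq : (q : R) = 0) :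
    cubMap R m (pderiv 0 (chord R q m)) =
      (X 0 ^ (q - 1)) ^ 5 * X 0 ^ 5 * (X 1 ^ q - X 1 * X 0 ^ (q - 1)) := by
  rw [pderiv_zero_chord q m hq]
  obtain ⟨r, rfl⟩ : ∃ r, q = r + 1 := ⟨q - 1, by omega⟩
  simp only [tl, map_add, map_sub, map_mul, map_pow, cubMap, monMap_X, cub_one,
    cub_three, Nat.add_sub_cancel]
  ring

theorem cubMap_pderiv_two (R : Type*) [CommRing R] (q m : ℕ) (hq1 : 1 ≤ q) (hq : (q : R) = 0) :
    cubMap R m (pderiv 2 (chord R q m)) =
      -((X 0 ^ (q - 1)) ^ 4 * X 0 ^ 4 * ((X 1 ^ q - X 1 * X 0 ^ (q - 1)) *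
        (X 1 ^ q + 2 * X 1 * X 0 ^ (q - 1)))) := by
  rw [pderiv_two_chord q m hq]
  obtain ⟨r, rfl⟩ : ∃ r, q = r + 1 := ⟨q - 1, by omega⟩
  simp only [tl, map_add, map_sub, map_mul, map_pow, map_neg, map_ofNat, cubMap, monMap_X, cub_one,
    cub_two, cub_three, Nat.add_sub_cancel]
  ring

/-- If `A b^p = B a^p` in a polynomial domain of characteristic `p`, with `b ≠ 0`, then the
Wronskian of `A` and `B` vanishes. -/
theorem wronskian_eq_zero {k : Type*} [Field k] {τ : Type*} (p : ℕ) [CharP k p]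
    {A B a b : MvPolynomial τ k} (j : τ) (hb : b ≠ 0)
    (h : A * b ^ p = B * a ^ p) :
    pderiv j A * B - pderiv j B * A = 0 := by
  have hp0 : ((p : ℕ) : MvPolynomial τ k) = 0 := natCast_eq_zero' (CharP.cast_eq_zero k p)
  have h1 : pderiv j (A * b ^ p) = pderiv j (B * a ^ p) := by rw [h]
  rw [pderiv_mul, pderiv_mul, pderiv_pow, pderiv_pow, hp0] at h1
  have h2 : (pderiv j A * B - pderiv j B * A) * b ^ p = 0 := by
    linear_combination B * h1 - pderiv j B * h
  rcases mul_eq_zero.1 h2 with h3 | h3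
  · exact h3
  · exact absurd h3 (pow_ne_zero _ hb)

theorem trdeg_quotient_ker_cubMap (k : Type*) [Field k] (m : ℕ) :
    Algebra.trdeg k (MvPolynomial (Fin (m + 3 + 1)) k ⧸ RingHom.ker (cubMap k m)) = 2 := by
  set P := RingHom.ker (cubMap k m) with hP
  apply le_antisymm
  · let f : (MvPolynomial (Fin (m + 3 + 1)) k ⧸ P) →ₐ[k] MvPolynomial (Fin 2) k :=
      Ideal.Quotient.liftₐ P (cubMap k m) (fun a ha => by rwa [hP, RingHom.mem_ker] at ha)
    have hf : Function.Injective f := by
      rw [injective_iff_map_eq_zero]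
      intro a ha
      obtain ⟨a, rfl⟩ := Ideal.Quotient.mk_surjective a
      rw [Ideal.Quotient.eq_zero_iff_mem, hP, RingHom.mem_ker]
      exact ha
    have h1 := trdeg_le_of_injective f hf
    rw [MvPolynomial.trdeg_of_isDomain] at h1
    simpa using h1
  · let g0 : MvPolynomial (Fin 2) k →ₐ[k] MvPolynomial (Fin (m + 3 + 1)) k :=
      aeval (fun i : Fin 2 => if i = 0 then X 3 else X 0)
    let g : MvPolynomial (Fin 2) k →ₐ[k] (MvPolynomial (Fin (m + 3 + 1)) k ⧸ P) :=
      (Ideal.Quotient.mkₐ k P).comp g0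
    have hcomp : (cubMap k m).comp g0 = expand 3 := by
      apply MvPolynomial.algHom_ext
      intro i
      rw [AlgHom.comp_apply, expand_X]
      simp only [g0, aeval_X]
      fin_cases i
      · simp [monMap_X, cub_three]
      · simp [monMap_X, cub_zero]
    have hg : Function.Injective g := by
      rw [injective_iff_map_eq_zero]
      intro a ha
      have h1 : g0 a ∈ P := by
        rw [← Ideal.Quotient.eq_zero_iff_mem]
        exact ha
      rw [hP, RingHom.mem_ker] at h1
      have h2 : expand 3 a = 0 := by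
        rw [← hcomp]; exact h1
      exact (expand_injective (n := 3) (by norm_num)) (by rw [h2, map_zero])
    have h1 := trdeg_le_of_injective g hg
    rw [MvPolynomial.trdeg_of_isDomain] at h1
    simpa using h1

end Pool.Agent.Lib.MP_291982_ag
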